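import Pool.Agent.H.MP_e427d9_lc.D

set_option autoImplicit false

namespace Pool.Agent.Results.MP_e427d9_lc.Depth

open Pool.Agent.H.MP_e427d9_lc Sum Encodable
open Nat.Partrec (Code)

theorem rf (p : ℕ → Prop) [DecidablePred p] (s) :
    s ∈ (Nat.rfind fun s => Part.some (decide (p s))) ↔ p s ∧ ∀ t < s, ¬p t :=
  Nat.mem_rfind.trans (by simp)

theorem result : ¬∃ f : List (List Bool) →. ℕ, Partrec f ∧
    ∀ n, 0 < n → ∀ (G : SimpleGraph (Fin n)) [DecidableRel G.Adj],
      ∃ k ∈ f (mat G), IsLeast {d | ∃ φ : Fm 0, φ.depth = d ∧ Defines φ G} k := by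
  classical
  rintro ⟨f, hf, h⟩
  obtain ⟨K, Q, _, M, u⟩ := univ
  obtain ⟨_, ⟨eq⟩⟩ := Finite.exists_equiv_fin Q
  let := Primcodable.ofEquiv _ eq
  obtain ⟨sz, T, t1, t2, t3⟩ := graphs M
  obtain ⟨n, ⟨e⟩⟩ := Finite.exists_equiv_fin (Option (Fin (K + 2) ⊕ Option Q))
  have d := d_psi (fun l => e (some l)) M (e none)
  obtain ⟨a, ha⟩ := d.exN
  have : Partrec₂ fun (c : Code) (i : ℕ) => (i.casesOn (Part.some 0) fun i =>
      (Nat.rfind fun s => Part.some (decide (M.run (encode c) (encode c + 1 + i) s = none))).bind fun s =>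
        (f (mat (T (encode c) (encode c + 1 + i) (encode c + 1 + i + s)))).bind fun k =>
          Nat.rfind fun _ => Part.some (decide (k ≤ a + encode c)) : Part ℕ) := by
    have j : Primrec fun x : (Code × ℕ) × ℕ => (encode x.1.1, encode x.1.1 + 1 + x.2) :=
      (Primrec.encode.comp (Primrec.fst.comp .fst)).pair
        (Primrec.nat_add.comp (Primrec.succ.comp (Primrec.encode.comp (Primrec.fst.comp .fst))) .snd)
    exact Partrec.nat_casesOn_right .snd (.const 0) (Partrec.bind (Partrec.rfind (Primrec.eq.comp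
      ((p_run M).comp ((j.comp .fst).pair .snd)) (.const none)).decide.to_comp.partrec.to₂)
      (Partrec.bind (hf.comp (t3.comp ((j.comp .fst).pair (Primrec.nat_add.comp (Primrec.snd.comp (j.comp .fst))
        .snd))).to_comp) (Partrec.rfind (Primrec.nat_le.comp (Primrec.snd.comp .fst) (Primrec.nat_add.comp (.const a)
          (Primrec.fst.comp (j.comp (Primrec.fst.comp (Primrec.fst.comp .fst)))))).decide.to_comp.partrec.to₂).to₂).to₂).to₂
  obtain ⟨c, hc⟩ := Nat.Partrec.Code.fixed_point₂ this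
  specialize u c
  generalize encode c = m at *
  obtain ⟨ψ, p1, p2⟩ := ha m
  let N := fun i => m + 1 + i + sInf {s | M.run m (m + 1 + i) s = none}
  have g : ∀ i, (c.eval i).Dom → M.Good m (m + 1 + i) (N i) := fun i b => by
    have := Nat.sInf_mem (s := {s | M.run m (m + 1 + i) s = none}) ((u i).2 b)
    refine ⟨by omega, Nat.lt_add_of_pos_right (Nat.pos_of_ne_zero fun z => ?_), by simpa [N] using this,
      fun s l => Nat.notMem_of_lt_sInf (by simpa [N] using l)⟩
    rw [z] at this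
    cases this
  refine diag (fun i => T m (m + 1 + i) (N i)) (fun i => (c.eval i).Dom) ψ p1 (by rw [hc]; trivial) (fun i => ?_)
    (fun i b => ?_) fun W _ H b => ?_
  · have k : ∀ s, s ∈ (Nat.rfind fun s => Part.some (decide (M.run m (m + 1 + i) s = none))) ↔
        (c.eval i).Dom ∧ m + 1 + i + s = N i := fun s => by
      refine (rf ..).trans ⟨fun ⟨x, y⟩ => ⟨(u i).1 ⟨_, x⟩, ?_⟩, fun ⟨x, y⟩ => ?_⟩
      · obtain ⟨-, k2, k3, k4⟩ := g i ((u i).1 ⟨_, x⟩)
        by_contra z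
        rcases lt_or_gt_of_ne z with z | z
        exacts [k4 _ (by omega) x, y _ (by omega) k3]
      · obtain ⟨-, k2, k3, k4⟩ := g i x
        exact ⟨by rwa [show s = N i - (m + 1 + i) by omega], fun _ l => k4 _ (by omega)⟩
    refine ((congrArg Part.Dom (congrFun hc (i + 1))).to_iff.trans Part.dom_iff_mem).trans ((exists_congr fun _ => Part.mem_bind_iff.trans
      (exists_congr fun s => and_congr (k s) (Part.mem_bind_iff.trans (exists_congr fun _ =>
        and_congr_right fun _ => rf (fun _ => _) _)))).trans ?_)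
    refine ⟨fun ⟨_, s, ⟨x, y⟩, k, z, l, _⟩ => ⟨x, ?_⟩, fun ⟨x, φ, y, z⟩ => ?_⟩ <;>
      obtain ⟨k', k1, k2, k3⟩ := h _ (by have := t1 (N i); have := (g i x).2.1; omega) (T m (m + 1 + i) (N i))
    · obtain rfl := Part.mem_unique (y ▸ z) k1
      exact k2.imp fun φ w => ⟨w.1.trans_le l, w.2⟩
    · obtain ⟨s, w⟩ := Nat.exists_eq_add_of_le (g i x).2.1.le
      exact ⟨0, s, ⟨x, w.symm⟩, k', w ▸ k1, (k3 ⟨φ, rfl, z⟩).trans y, by simp⟩
  · obtain ⟨g1, g2, g3⟩ := g i b
    obtain ⟨r⟩ := t2 m (m + 1 + i) (N i)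
    refine ⟨by have := t1 (N i); omega, (ψ.iso0 r).1 ((p2 ..).2 ⟨fun x => (e.symm x).elim (inr (1, ⟨m, by omega⟩)) inl, ?_⟩)⟩
    simpa using psi_iff.2 ⟨_, rfl, rfl, good_comp (z := ⟨m, by omega⟩) ⟨g1, g2, g3⟩⟩
  · obtain ⟨v, b⟩ := (p2 ..).1 b
    obtain ⟨N', St, R, r, l⟩ := str_iso b.1
    have := (d.iso r (r.symm ∘ v)).1 (by simpa [Function.comp_def] using b)
    simp only [Function.comp, ← l, RelIso.symm_apply_apply] at this
    obtain ⟨t, -, rfl, k⟩ := psi_iff.1 this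
    obtain ⟨j, ⟨g1, g2, g3, g4⟩, rfl, rfl⟩ := comp_good k
    obtain ⟨i, rfl⟩ : ∃ i, j = t + 1 + i := ⟨j - t - 1, by omega⟩
    have b := (u i).1 ⟨_, g3⟩
    obtain ⟨-, k2, k3, k4⟩ := g i b
    have z : N i = N' := by
      by_contra z
      rcases lt_or_gt_of_ne z with z | z
      exacts [g4 _ (by omega) k3, k4 _ (by omega) g3]
    exact ⟨i, b, by rw [z]; exact ⟨r.symm.trans (t2 ..).some.symm⟩⟩

end Pool.Agent.Results.MP_e427d9_lc.Depth
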